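import Mathlib

/-!
A unital non-associative ring `R` of characteristic two and a brachymorphism `R → 𝔽₂` that is
not additive.

`R` has an `𝔽₂`-basis `e₀ = 1, e₁, e₂, …` with `eᵢ eⱼ = e_{op i j}`, where `op i 0 = i`,
`op 0 j = j` and `op (i+1) (j+1) = pair i j + 3` (`pair` is the pairing bijection `ℕ × ℕ → ℕ`).
-/

namespace Pool.Agent.Lib.MP_041051_al.Counter

/-- The multiplication of exponents. -/
def op : ℕ → ℕ → ℕ
  | 0, j => j
  | i + 1, 0 => i + 1
  | i + 1, j + 1 => Nat.pair i j + 3

theorem op_zero_left (j : ℕ) : op 0 j = j := by simp [op]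

theorem op_zero_right (i : ℕ) : op i 0 = i := by cases i <;> rfl

theorem op_succ (i j : ℕ) : op (i + 1) (j + 1) = Nat.pair i j + 3 := rfl

theorem op_lt_left {i i' : ℕ} (j : ℕ) (h : i < i') : op i j < op i' j := by
  cases j with
  | zero => simpa [op_zero_right] using h
  | succ j =>
    cases i' with
    | zero => omega
    | succ i' =>
      cases i with
      | zero =>
        rw [op_zero_left, op_succ]
        have := Nat.right_le_pair i' j
        omega
      | succ i =>
        rw [op_succ, op_succ]
        have := Nat.pair_lt_pair_left j (show i < i' by omega)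
        omega

theorem op_lt_right (i : ℕ) {j j' : ℕ} (h : j < j') : op i j < op i j' := by
  cases i with
  | zero => simpa [op_zero_left] using h
  | succ i =>
    cases j' with
    | zero => omega
    | succ j' =>
      cases j with
      | zero =>
        rw [op_zero_right, op_succ]
        have := Nat.left_le_pair i j'
        omega
      | succ j =>
        rw [op_succ, op_succ]
        have := Nat.pair_lt_pair_right i (show j < j' by omega)
        omega

theorem op_le {i i' j j' : ℕ} (h : i ≤ i') (h' : j ≤ j') : op i j ≤ op i' j' := by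
  have h1 : op i j ≤ op i' j := by
    rcases h.lt_or_eq with h | rfl
    · exact (op_lt_left j h).le
    · exact le_rfl
  have h2 : op i' j ≤ op i' j' := by
    rcases h'.lt_or_eq with h | rfl
    · exact (op_lt_right i' h).le
    · exact le_rfl
  exact h1.trans h2

theorem op_eq {i i' j j' : ℕ} (h : i ≤ i') (h' : j ≤ j') (he : op i j = op i' j') :
    i = i' ∧ j = j' := by
  have h2 := op_le h le_rfl (j := j) (j' := j)
  have h3 := op_le le_rfl h' (i := i') (i' := i')
  constructor
  · rcases h.lt_or_eq with h | h
    · have := op_lt_left j h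
      omega
    · exact h
  · rcases h'.lt_or_eq with h | h
    · have := op_lt_right i' h
      omega
    · exact h

theorem le_op_left (i j : ℕ) : i ≤ op i j := by
  have := op_le (le_refl i) (Nat.zero_le j)
  rwa [op_zero_right] at this

theorem le_op_right (i j : ℕ) : j ≤ op i j := by
  have := op_le (Nat.zero_le i) (le_refl j)
  rwa [op_zero_left] at this

theorem op_inj {i j i' j' : ℕ} (hi : 0 < i) (hj : 0 < j) (hi' : 0 < i') (hj' : 0 < j')
    (h : op i j = op i' j') : i = i' ∧ j = j' := by
  obtain ⟨i, rfl⟩ := Nat.exists_eq_succ_of_ne_zero hi.ne'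
  obtain ⟨j, rfl⟩ := Nat.exists_eq_succ_of_ne_zero hj.ne'
  obtain ⟨i', rfl⟩ := Nat.exists_eq_succ_of_ne_zero hi'.ne'
  obtain ⟨j', rfl⟩ := Nat.exists_eq_succ_of_ne_zero hj'.ne'
  change Nat.pair i j + 3 = Nat.pair i' j' + 3 at h
  have := Nat.pair_eq_pair.1 (Nat.add_right_cancel h)
  simpa using this

theorem lt_op {i j : ℕ} (hi : 0 < i) (hj : 0 < j) : i < op i j ∧ j < op i j ∧ 3 ≤ op i j := by
  obtain ⟨i, rfl⟩ := Nat.exists_eq_succ_of_ne_zero hi.ne'
  obtain ⟨j, rfl⟩ := Nat.exists_eq_succ_of_ne_zero hj.ne'
  change i + 1 < Nat.pair i j + 3 ∧ j + 1 < Nat.pair i j + 3 ∧ 3 ≤ Nat.pair i j + 3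
  have h1 := Nat.left_le_pair i j
  have h2 := Nat.right_le_pair i j
  omega

/-- The unital magma `(ℕ, op, 0)`. -/
def Mag : Type := ℕ

instance : MulOneClass Mag where
  one := (0 : ℕ)
  mul := op
  one_mul := op_zero_left
  mul_one := op_zero_right

instance : DecidableEq Mag := inferInstanceAs (DecidableEq ℕ)

/-- The unital non-associative ring: the magma algebra of `(ℕ, op, 0)` over `𝔽₂`. -/
abbrev R : Type := MonoidAlgebra (ZMod 2) Mag

/-- The `n`-th coefficient. -/
def co (r : R) (n : ℕ) : ZMod 2 := r.coeff (show Mag from n)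

theorem ext_co {r s : R} (h : ∀ n, co r n = co s n) : r = s := by
  apply MonoidAlgebra.ext
  apply Finsupp.ext
  exact h

theorem co_add (r s : R) (n : ℕ) : co (r + s) n = co r n + co s n := rfl

theorem co_zero (n : ℕ) : co 0 n = 0 := rfl

theorem co_one (n : ℕ) : co 1 n = if n = 0 then 1 else 0 := by
  change (MonoidAlgebra.single (1 : Mag) (1 : ZMod 2)).coeff (show Mag from n) = _
  rw [MonoidAlgebra.coeff_single, Finsupp.single_apply]
  by_cases h : n = 0
  · subst h
    rw [if_pos rfl]
    exact if_pos rfl
  · rw [if_neg h]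
    exact if_neg (fun h' => h h'.symm)

theorem co_mul (r s : R) (n : ℕ) :
    co (r * s) n = ∑ i ∈ r.coeff.support, ∑ j ∈ s.coeff.support,
      if op i j = n then co r i * co s j else 0 := by
  rw [co, MonoidAlgebra.coeff_mul]
  rfl

theorem zmod_two (a : ZMod 2) : a = 0 ∨ a = 1 := by
  fin_cases a
  · exact Or.inl rfl
  · exact Or.inr rfl

theorem add_self_zmod (a : ZMod 2) : a + a = 0 := by
  rcases zmod_two a with h | h <;> subst h <;> decide

theorem add_self_R (r : R) : r + r = 0 := by
  apply ext_co
  intro n
  rw [co_add, add_self_zmod, co_zero]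

/-- The degree: the largest index with non-zero coefficient (`0` for the zero element). -/
def deg (r : R) : ℕ := r.coeff.support.sup (fun m : Mag => (show ℕ from m))

theorem le_deg {r : R} {n : ℕ} (h : co r n ≠ 0) : n ≤ deg r :=
  Finset.le_sup (f := fun m : Mag => (show ℕ from m)) (Finsupp.mem_support_iff.2 h)

theorem co_eq_zero_of_deg_lt {r : R} {n : ℕ} (h : deg r < n) : co r n = 0 := by
  by_contra hn
  exact absurd (le_deg hn) (not_le.2 h)

theorem co_deg {r : R} (h : r ≠ 0) : co r (deg r) = 1 := by
  have hne : r.coeff.support.Nonempty := by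
    rw [Finsupp.support_nonempty_iff]
    intro h0
    exact h (MonoidAlgebra.coeff_eq_zero.1 h0)
  obtain ⟨m, hm, hm'⟩ := Finset.exists_mem_eq_sup _ hne (fun m : Mag => (show ℕ from m))
  have h1 : co r (deg r) ≠ 0 := by
    rw [deg, hm']
    exact Finsupp.mem_support_iff.1 hm
  rcases zmod_two (co r (deg r)) with h2 | h2
  · exact absurd h2 h1
  · exact h2

theorem deg_eq {r : R} {n : ℕ} (h : co r n ≠ 0) (h' : ∀ m, n < m → co r m = 0) :
    deg r = n := by
  apply le_antisymm _ (le_deg h)
  by_contra hlt
  push Not at hlt
  have hr : r ≠ 0 := by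
    rintro rfl
    exact h (co_zero n)
  have := h' _ hlt
  rw [co_deg hr] at this
  exact absurd this one_ne_zero

theorem deg_zero : deg 0 = 0 := rfl

theorem deg_one : deg 1 = 0 := by
  apply deg_eq
  · rw [co_one]; simp
  · intro m hm
    rw [co_one, if_neg (by omega)]

theorem eq_zero_or_one {r : R} (h : deg r = 0) : r = 0 ∨ r = 1 := by
  rcases zmod_two (co r 0) with h0 | h0
  · left
    apply ext_co
    intro n
    rcases Nat.eq_zero_or_pos n with rfl | hn
    · rw [h0, co_zero]
    · rw [co_eq_zero_of_deg_lt (by omega), co_zero]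
  · right
    apply ext_co
    intro n
    rw [co_one]
    rcases Nat.eq_zero_or_pos n with rfl | hn
    · rw [h0, if_pos rfl]
    · rw [co_eq_zero_of_deg_lt (by omega), if_neg (by omega)]

theorem ne_zero_of_deg {r : R} (h : 0 < deg r) : r ≠ 0 := by
  rintro rfl
  rw [deg_zero] at h
  exact lt_irrefl _ h

theorem mul_lead {r s : R} (hr : r ≠ 0) (hs : s ≠ 0) :
    co (r * s) (op (deg r) (deg s)) = 1 ∧
      ∀ n, op (deg r) (deg s) < n → co (r * s) n = 0 := by
  constructor
  · rw [co_mul]
    have hmr : (show Mag from deg r) ∈ r.coeff.support := by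
      rw [Finsupp.mem_support_iff]
      change co r (deg r) ≠ 0
      rw [co_deg hr]; exact one_ne_zero
    have hms : (show Mag from deg s) ∈ s.coeff.support := by
      rw [Finsupp.mem_support_iff]
      change co s (deg s) ≠ 0
      rw [co_deg hs]; exact one_ne_zero
    rw [Finset.sum_eq_single (show Mag from deg r), Finset.sum_eq_single (show Mag from deg s)]
    · rw [if_pos rfl, co_deg hr, co_deg hs, one_mul]
    · intro j hj hne
      apply if_neg
      intro h
      have h1 : (show ℕ from j) ≤ deg s := le_deg (Finsupp.mem_support_iff.1 hj)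
      exact hne (op_eq le_rfl h1 h).2
    · intro h; exact absurd hms h
    · intro i hi hne
      apply Finset.sum_eq_zero
      intro j hj
      apply if_neg
      intro h
      have h1 : (show ℕ from j) ≤ deg s := le_deg (Finsupp.mem_support_iff.1 hj)
      have h2 : (show ℕ from i) ≤ deg r := le_deg (Finsupp.mem_support_iff.1 hi)
      exact hne (op_eq h2 h1 h).1
    · intro h; exact absurd hmr h
  · intro n hn
    rw [co_mul]
    apply Finset.sum_eq_zero
    intro i hi
    apply Finset.sum_eq_zero
    intro j hj
    apply if_neg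
    intro h
    have h1 : (show ℕ from j) ≤ deg s := le_deg (Finsupp.mem_support_iff.1 hj)
    have h2 : (show ℕ from i) ≤ deg r := le_deg (Finsupp.mem_support_iff.1 hi)
    exact absurd (op_le h2 h1) (not_le.2 (lt_of_lt_of_eq hn h.symm))

theorem deg_mul {r s : R} (hr : r ≠ 0) (hs : s ≠ 0) : deg (r * s) = op (deg r) (deg s) := by
  obtain ⟨h1, h2⟩ := mul_lead hr hs
  exact deg_eq (by rw [h1]; exact one_ne_zero) h2

theorem mul_ne_zero' {r s : R} (hr : r ≠ 0) (hs : s ≠ 0) : r * s ≠ 0 := by
  intro h
  have h1 := (mul_lead hr hs).1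
  rw [h, co_zero] at h1
  exact zero_ne_one h1

theorem deg_add_lt {r s : R} (h : deg s < deg r) : deg (r + s) = deg r := by
  apply deg_eq
  · rw [co_add, co_eq_zero_of_deg_lt h, add_zero, co_deg (ne_zero_of_deg (by omega))]
    exact one_ne_zero
  · intro m hm
    rw [co_add, co_eq_zero_of_deg_lt hm, co_eq_zero_of_deg_lt (h.trans hm), add_zero]

theorem deg_add_self_lt {r s : R} (hr : 0 < deg r) (h : deg r = deg s) :
    deg (r + s) < deg r := by
  by_contra hlt
  push Not at hlt
  have hne : r + s ≠ 0 := ne_zero_of_deg (by omega)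
  have h1 := co_deg hne
  rw [co_add] at h1
  rcases hlt.lt_or_eq with h2 | h2
  · rw [co_eq_zero_of_deg_lt h2, co_eq_zero_of_deg_lt (h ▸ h2), add_zero] at h1
    exact zero_ne_one h1
  · rw [← h2] at h1
    nth_rewrite 2 [h] at h1
    rw [co_deg (ne_zero_of_deg hr), co_deg (ne_zero_of_deg (h ▸ hr)), add_self_zmod] at h1
    exact zero_ne_one h1

/-- Two factorisations of the same element up to a constant. -/
theorem two_fact {r s r' s' C : R} (hr : 0 < deg r) (hs : 0 < deg s) (hr' : 0 < deg r')
    (hs' : 0 < deg s') (hC : deg C = 0) (h : r * s = r' * s' + C) :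
    (r = r' ∧ s = s') ∨
    (∃ p, s' = s + 1 ∧ r = p * s' + C ∧ r' = p * s + C) ∨
    (∃ q, r' = r + 1 ∧ s' = r * q + C ∧ s = r' * q + C) := by
  have hd1 : deg (r * s) = op (deg r) (deg s) := deg_mul (ne_zero_of_deg hr) (ne_zero_of_deg hs)
  have hd2 : deg (r' * s') = op (deg r') (deg s') :=
    deg_mul (ne_zero_of_deg hr') (ne_zero_of_deg hs')
  have hd3 : deg (r' * s' + C) = deg (r' * s') := by
    apply deg_add_lt
    rw [hC, hd2]
    have := (lt_op hr' hs').2.2
    omega
  have hd : op (deg r) (deg s) = op (deg r') (deg s') := by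
    rw [← hd1, h, hd3, hd2]
  obtain ⟨er, es⟩ := op_inj hr hs hr' hs' hd
  obtain ⟨p, hp⟩ : ∃ p, p = r + r' := ⟨_, rfl⟩
  obtain ⟨q, hq⟩ : ∃ q, q = s + s' := ⟨_, rfl⟩
  have hpd : deg p < deg r := hp ▸ deg_add_self_lt hr er
  have hqd : deg q < deg s := hq ▸ deg_add_self_lt hs es
  have key1 : r * q + p * s' = C := by
    rw [hq, hp, mul_add, add_mul, h]
    calc r' * s' + C + r * s' + (r * s' + r' * s')
        = C + (r' * s' + r' * s') + (r * s' + r * s') := by abel
      _ = C := by rw [add_self_R, add_self_R, add_zero, add_zero]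
  have key2 : r' * q + p * s = C := by
    rw [hq, hp, mul_add, add_mul, h]
    calc r' * s + r' * s' + (r' * s' + C + r' * s)
        = C + (r' * s' + r' * s') + (r' * s + r' * s) := by abel
      _ = C := by rw [add_self_R, add_self_R, add_zero, add_zero]
  have hr'p : r' = r + p := by
    rw [hp, ← add_assoc, add_self_R, zero_add]
  have hs'q : s' = s + q := by
    rw [hq, ← add_assoc, add_self_R, zero_add]
  by_cases hp0 : p = 0
  · by_cases hq0 : q = 0
    · left
      rw [hr'p, hs'q, hp0, hq0, add_zero, add_zero]
      exact ⟨rfl, rfl⟩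
    · exfalso
      rw [hp0, zero_mul, add_zero] at key1
      have := deg_mul (ne_zero_of_deg hr) hq0
      rw [key1, hC] at this
      have := le_op_left (deg r) (deg q)
      omega
  by_cases hq0 : q = 0
  · exfalso
    rw [hq0, mul_zero, zero_add] at key1
    have := deg_mul hp0 (ne_zero_of_deg hs')
    rw [key1, hC] at this
    have := le_op_right (deg p) (deg s')
    omega
  -- both non-zero
  have e1 := deg_mul (ne_zero_of_deg hr) hq0
  have e2 := deg_mul hp0 (ne_zero_of_deg hs')
  have l1 := le_op_left (deg r) (deg q)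
  have l2 := le_op_right (deg p) (deg s')
  have hdeq : deg (r * q) = deg (p * s') := by
    rcases lt_trichotomy (deg (r * q)) (deg (p * s')) with hlt | heq | hgt
    · exfalso
      have := deg_add_lt hlt
      rw [add_comm, key1, hC] at this
      omega
    · exact heq
    · exfalso
      have := deg_add_lt hgt
      rw [key1, hC] at this
      omega
  have hcase : deg q = 0 ∨ deg p = 0 := by
    by_contra hcon
    push Not at hcon
    obtain ⟨c1, c2⟩ := hcon
    rw [e1, e2] at hdeq
    have := (op_inj hr (Nat.pos_of_ne_zero c1) (Nat.pos_of_ne_zero c2) hs' hdeq).1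
    omega
  right
  rcases hcase with hc | hc
  · left
    have hq1 : q = 1 := by
      rcases eq_zero_or_one hc with h | h
      · exact absurd h hq0
      · exact h
    refine ⟨p, by rw [hs'q, hq1], ?_, ?_⟩
    · rw [← key1, hq1, mul_one]
      calc r = r + (p * s' + p * s') := by rw [add_self_R, add_zero]
        _ = p * s' + (r + p * s') := by abel
    · rw [← key2, hq1, mul_one]
      calc r' = r' + (p * s + p * s) := by rw [add_self_R, add_zero]
        _ = p * s + (r' + p * s) := by abel
  · right
    have hp1 : p = 1 := by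
      rcases eq_zero_or_one hc with h | h
      · exact absurd h hp0
      · exact h
    refine ⟨q, by rw [hr'p, hp1], ?_, ?_⟩
    · rw [← key1, hp1, one_mul]
      calc s' = s' + (r * q + r * q) := by rw [add_self_R, add_zero]
        _ = r * q + (r * q + s') := by abel
    · rw [← key2, hp1, one_mul]
      calc s = s + (r' * q + r' * q) := by rw [add_self_R, add_zero]
        _ = r' * q + (r' * q + s) := by abel

/-- The constant `c ∈ 𝔽₂` as an element of `R`. -/
noncomputable def K (c : ZMod 2) : R := if c = 0 then 0 else 1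

theorem K_zero : K 0 = 0 := rfl

theorem K_one : K 1 = 1 := rfl

theorem deg_K (c : ZMod 2) : deg (K c) = 0 := by
  rcases zmod_two c with h | h <;> subst h
  · rw [K_zero, deg_zero]
  · rw [K_one, deg_one]

theorem K_add (c d : ZMod 2) : K (c + d) = K c + K d := by
  rcases zmod_two c with h | h <;> rcases zmod_two d with h' | h' <;> subst h <;> subst h'
  · rw [add_zero, K_zero, add_zero]
  · rw [zero_add, K_zero, zero_add]
  · rw [add_zero, K_zero, add_zero]
  · rw [K_one, add_self_zmod, add_self_R, K_zero]

theorem co_K (c : ZMod 2) : co (K c) 0 = c := by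
  rcases zmod_two c with h | h <;> subst h
  · rfl
  · rw [K_one, co_one, if_pos rfl]

/-- The representative of `r` modulo constants with vanishing constant coefficient. -/
noncomputable def red (r : R) : R := r + K (co r 0)

theorem red_add_K (r : R) (c : ZMod 2) : red (r + K c) = red r := by
  rw [red, red, co_add, co_K, K_add]
  calc r + K c + (K (co r 0) + K c) = r + K (co r 0) + (K c + K c) := by abel
    _ = r + K (co r 0) := by rw [add_self_R, add_zero]

/-- `w` is a product of two non-constant elements, up to a constant. -/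
def Fac (w : R) : Prop :=
  ∃ t : R × R × ZMod 2, 0 < deg t.1 ∧ 0 < deg t.2.1 ∧ w = t.1 * t.2.1 + K t.2.2

theorem deg_fac {r s : R} {c : ZMod 2} (hr : 0 < deg r) (hs : 0 < deg s) :
    deg (r * s + K c) = op (deg r) (deg s) := by
  rw [deg_add_lt, deg_mul (ne_zero_of_deg hr) (ne_zero_of_deg hs)]
  rw [deg_K, deg_mul (ne_zero_of_deg hr) (ne_zero_of_deg hs)]
  have := (lt_op hr hs).2.2
  omega

theorem deg_red_le (r : R) : deg (red r) ≤ deg r := by
  by_contra h
  push Not at h
  have hne : red r ≠ 0 := ne_zero_of_deg (by omega)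
  have h1 := co_deg hne
  have h2 : co (red r) (deg (red r)) = 0 := by
    rw [red, co_add]
    rw [← red, co_eq_zero_of_deg_lt h, co_eq_zero_of_deg_lt (by rw [deg_K]; omega), add_zero]
  rw [h2] at h1
  exact zero_ne_one h1

open Classical in
/-- The brachymorphism. -/
noncomputable def f (v : R) : ZMod 2 :=
  if h : Fac (red v) then
    co v 0 + (f h.choose.1 * f h.choose.2.1 + h.choose.2.2)
  else co v 0 + co v 1 * co v 2
termination_by deg v
decreasing_by
  · have hs := h.choose_spec
    have h1 := deg_fac (c := h.choose.2.2) hs.1 hs.2.1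
    rw [← hs.2.2] at h1
    have h2 := lt_op hs.1 hs.2.1
    have h3 := deg_red_le v
    omega
  · have hs := h.choose_spec
    have h1 := deg_fac (c := h.choose.2.2) hs.1 hs.2.1
    rw [← hs.2.2] at h1
    have h2 := lt_op hs.1 hs.2.1
    have h3 := deg_red_le v
    omega

theorem f_add_K (v : R) (c : ZMod 2) : f (v + K c) = f v + c := by
  have h1 : co (v + K c) 1 = co v 1 := by
    rw [co_add, co_eq_zero_of_deg_lt (r := K c) (by rw [deg_K]; omega), add_zero]
  have h2 : co (v + K c) 2 = co v 2 := by
    rw [co_add, co_eq_zero_of_deg_lt (r := K c) (by rw [deg_K]; omega), add_zero]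
  rw [f, f]
  by_cases h : Fac (red v)
  · have h' : Fac (red (v + K c)) := by rwa [red_add_K]
    rw [dif_pos h, dif_pos h', co_add, co_K]
    have e : h'.choose = h.choose := by
      congr 1
      funext t
      rw [red_add_K]
    rw [e]
    abel
  · have h' : ¬ Fac (red (v + K c)) := by rwa [red_add_K]
    rw [dif_neg h, dif_neg h', h1, h2, co_add, co_K]
    abel

theorem not_fac_of_deg {v : R} (h : deg v < 3) : ¬ Fac (red v) := by
  rintro ⟨t, h1, h2, h3⟩
  have h4 := deg_fac (c := t.2.2) h1 h2
  rw [← h3] at h4
  have h5 := (lt_op h1 h2).2.2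
  have h6 := deg_red_le v
  omega

theorem f_low {v : R} (h : deg v < 3) : f v = co v 0 + co v 1 * co v 2 := by
  rw [f, dif_neg (not_fac_of_deg h)]

theorem f_zero : f 0 = 0 := by
  rw [f_low (by rw [deg_zero]; omega)]
  simp [co_zero]

theorem f_one : f 1 = 1 := by
  rw [f_low (by rw [deg_one]; omega)]
  simp [co_one]

/-- Multiplicativity (with a constant added), by induction on the degree of the product. -/
theorem f_mul_aux (n : ℕ) : ∀ (r s : R) (c : ZMod 2), deg (r * s) < n →
    f (r * s + K c) = f r * f s + c := by
  induction n with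
  | zero => intro r s c h; omega
  | succ n ih =>
    intro r s c hlt
    rw [f_add_K]
    congr 1
    rcases Nat.eq_zero_or_pos (deg r) with hr | hr
    · rcases eq_zero_or_one hr with h | h
      · rw [h, zero_mul, f_zero, zero_mul]
      · rw [h, one_mul, f_one, one_mul]
    rcases Nat.eq_zero_or_pos (deg s) with hs | hs
    · rcases eq_zero_or_one hs with h | h
      · rw [h, mul_zero, f_zero, mul_zero]
      · rw [h, mul_one, f_one, mul_one]
    have hdeg : deg (r * s) = op (deg r) (deg s) :=
      deg_mul (ne_zero_of_deg hr) (ne_zero_of_deg hs)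
    have hop := lt_op hr hs
    have hfac : Fac (red (r * s)) := ⟨(r, s, co (r * s) 0), hr, hs, rfl⟩
    rw [f, dif_pos hfac]
    obtain ⟨hr', hs', he⟩ := hfac.choose_spec
    set r' := hfac.choose.1 with hr'def
    set s' := hfac.choose.2.1 with hs'def
    set c' := hfac.choose.2.2 with hc'def
    -- r * s = r' * s' + K (c' + co (r * s) 0)
    have heq : r * s = r' * s' + K (c' + co (r * s) 0) := by
      have h1 : r * s = red (r * s) + K (co (r * s) 0) := by
        rw [red, add_assoc, add_self_R, add_zero]
      rw [K_add, ← add_assoc, ← he]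
      exact h1
    set d := c' + co (r * s) 0 with hd
    have goal' : f r' * f s' + d = f r * f s := by
      rcases two_fact hr hs hr' hs' (deg_K d) heq with ⟨e1, e2⟩ | ⟨p, e1, e2, e3⟩ | ⟨q, e1, e2, e3⟩
      · rw [← e1, ← e2] at heq ⊢
        have : K d = 0 := by
          have h2 : r * s + 0 = r * s + K d := by rw [add_zero]; exact heq
          exact (add_left_cancel h2).symm
        have hd0 : d = 0 := by rw [← co_K d, this, co_zero]
        rw [hd0, add_zero]
      · -- s' = s + 1, r = p * s' + K d, r' = p * s + K d
        have hp0 : p ≠ 0 := by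
          rintro rfl
          rw [zero_mul, zero_add] at e2
          rw [e2, deg_K] at hr
          omega
        have d1 : deg (p * s') < n := by
          have h1 := deg_mul hp0 (ne_zero_of_deg hs')
          have h2 := le_op_right (deg p) (deg s')
          have h3 : deg r = deg (p * s') := by
            rw [e2]
            apply deg_add_lt
            rw [deg_K]
            omega
          omega
        have d2 : deg (p * s) < n := by
          have h1 := deg_mul hp0 (ne_zero_of_deg hs)
          have h2 := le_op_right (deg p) (deg s)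
          have h3 : deg s' = deg s := by
            rw [e1]
            apply deg_add_lt
            rw [deg_one]
            exact hs
          have h4 := deg_mul hp0 (ne_zero_of_deg hs')
          rw [h3] at h4
          omega
        have f1 : f r = f p * f s' + d := by
          rw [← ih p s' d d1, ← e2]
        have f2 : f r' = f p * f s + d := by
          rw [← ih p s d d2, ← e3]
        have f3 : f s' = f s + 1 := by
          rw [e1, ← K_one, f_add_K]
        rw [f1, f2, f3]
        rcases zmod_two (f p) with h1 | h1 <;> rcases zmod_two (f s) with h2 | h2 <;>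
          rcases zmod_two d with h3 | h3 <;> rw [h1, h2, h3] <;> decide
      · have hq0 : q ≠ 0 := by
          rintro rfl
          rw [mul_zero, zero_add] at e2
          rw [e2, deg_K] at hs'
          omega
        have h3 : deg r' = deg r := by
          rw [e1]
          apply deg_add_lt
          rw [deg_one]
          exact hr
        have k1 := deg_mul (ne_zero_of_deg hr) hq0
        have k2 := deg_mul (ne_zero_of_deg hr') hq0
        rw [h3] at k2
        have k3 := le_op_left (deg r) (deg q)
        have k4 : deg s = deg (r' * q) := by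
          rw [e3]
          apply deg_add_lt
          rw [deg_K]
          omega
        have f1 : f s' = f r * f q + d := by
          rw [← ih r q d (by omega), ← e2]
        have f2 : f s = f r' * f q + d := by
          rw [← ih r' q d (by omega), ← e3]
        have f3 : f r' = f r + 1 := by
          rw [e1, ← K_one, f_add_K]
        rw [f1, f2, f3]
        rcases zmod_two (f q) with h1 | h1 <;> rcases zmod_two (f r) with h2 | h2 <;>
          rcases zmod_two d with h3 | h3 <;> rw [h1, h2, h3] <;> decide
    rw [← goal', hd]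
    abel

theorem f_mul (r s : R) : f (r * s) = f r * f s := by
  have := f_mul_aux (deg (r * s) + 1) r s 0 (by omega)
  rwa [K_zero, add_zero, add_zero] at this

theorem f_succ (r : R) : f (1 + r) = 1 + f r := by
  rw [add_comm, ← K_one, f_add_K, add_comm]

/-- The basis element `e_n`. -/
noncomputable def e (n : ℕ) : R := MonoidAlgebra.single (show Mag from n) (1 : ZMod 2)

theorem co_e (n m : ℕ) : co (e n) m = if n = m then 1 else 0 := by
  change (MonoidAlgebra.single (show Mag from n) (1 : ZMod 2)).coeff (show Mag from m) = _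
  rw [MonoidAlgebra.coeff_single, Finsupp.single_apply]
  rfl

/-- There are a unital non-associative ring `R` and a map `f : R → 𝔽₂` that preserves
the successor map `x ↦ 1 + x` and the multiplication but is not additive. -/
theorem exists_nonadditive : ∃ (R : Type) (_ : NonAssocRing R) (f : R → ZMod 2),
    (∀ x, f (1 + x) = 1 + f x) ∧ (∀ x y, f (x * y) = f x * f y) ∧
      ∃ x y, f (x + y) ≠ f x + f y := by
  refine ⟨R, inferInstance, f, f_succ, f_mul, e 1, e 2, ?_⟩
  have d1 : deg (e 1) < 3 := by
    rw [deg_eq (n := 1)]
    · omega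
    · rw [co_e]; simp
    · intro m hm
      rw [co_e, if_neg (by omega)]
  have d2 : deg (e 2) < 3 := by
    rw [deg_eq (n := 2)]
    · omega
    · rw [co_e]; simp
    · intro m hm
      rw [co_e, if_neg (by omega)]
  have d3 : deg (e 1 + e 2) < 3 := by
    rw [deg_eq (n := 2)]
    · omega
    · rw [co_add, co_e, co_e]; simp
    · intro m hm
      rw [co_add, co_e, co_e, if_neg (by omega), if_neg (by omega), add_zero]
  rw [f_low d1, f_low d2, f_low d3]
  simp [co_add, co_e]

end Pool.Agent.Lib.MP_041051_al.Counter
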