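import Mathlib

namespace Pool.Agent.Lib.MP_041051_al

universe u

/-- The element `a` of a unital non-associative ring `R` is *left stable*: for every `z : R`
there are `n` and `y : R` with `L^n z = L^(n+1) y`, where `L` is left multiplication by `a`. -/
def LeftStable {R : Type u} [NonAssocRing R] (a : R) : Prop :=
  ∀ z : R, ∃ (n : ℕ) (y : R), (fun x => a * x)^[n] z = (fun x => a * x)^[n + 1] y

end Pool.Agent.Lib.MP_041051_al
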