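import Mathlib
import Pool.Agent.Lib.MP_041051_al.Defs

/-!
Additivity of brachymorphisms out of unital non-associative rings whose left multiplications
satisfy a (pointwise) descending chain condition, in particular out of all finite ones.
-/

namespace Pool.Agent.Lib.MP_041051_al.Positive

open Pool.Agent.Lib.MP_041051_al (LeftStable)

universe u v

section ring
variable {E : Type u} [Ring E]

/-- In a ring, the powers of `L` and of `1 + L` are comaximal in the subring generated
by `L`. -/
theorem exists_bezout (L : E) (n m : ℕ) :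
    ∃ A B : E, Commute A L ∧ Commute B L ∧ A * L ^ n + B * (1 + L) ^ m = 1 := by
  have hc : IsCoprime (Polynomial.X : Polynomial ℤ) (1 + Polynomial.X) :=
    ⟨-1, 1, by ring⟩
  obtain ⟨a, b, hab⟩ := (hc.pow (m := n) (n := m))
  refine ⟨Polynomial.aeval L a, Polynomial.aeval L b, ?_, ?_, ?_⟩
  · have h : Polynomial.aeval L (a * Polynomial.X) = Polynomial.aeval L (Polynomial.X * a) := by
      rw [mul_comm]
    simpa [Commute, SemiconjBy] using h
  · have h : Polynomial.aeval L (b * Polynomial.X) = Polynomial.aeval L (Polynomial.X * b) := by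
      rw [mul_comm]
    simpa [Commute, SemiconjBy] using h
  · have h := congrArg (Polynomial.aeval L) hab
    simpa using h

end ring

section main
variable {R : Type u} {S : Type v} [NonAssocRing R] [NonAssocRing S]

/-- Left multiplication as an additive endomorphism. -/
def lm (a : R) : AddMonoid.End R := AddMonoidHom.mulLeft a

theorem lm_apply (a x : R) : lm a x = a * x := rfl

theorem lm_one_add (a : R) : lm (1 + a) = 1 + lm a := by
  ext x
  change (1 + a) * x = x + a * x
  rw [add_mul, one_mul]

theorem lm_iterate (a x : R) (n : ℕ) : (fun y => a * y)^[n] x = (lm a ^ n) x := by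
  induction n generalizing x with
  | zero => simp
  | succ n ih =>
    rw [Function.iterate_succ_apply, ih, pow_succ]
    rfl

variable {f : R → S}

theorem f_iter (hmul : ∀ x y, f (x * y) = f x * f y) (a x : R) (n : ℕ) :
    f ((lm a ^ n) x) = (lm (f a) ^ n) (f x) := by
  induction n with
  | zero => simp
  | succ n ih =>
    rw [pow_succ', pow_succ']
    change f (a * (lm a ^ n) x) = f a * (lm (f a) ^ n) (f x)
    rw [hmul, ih]

/-- The mixed second difference of a brachymorphism in directions killed by a power of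
left multiplication by `a`, resp. by `1 + a`, vanishes. -/
theorem mixed_diff (hsucc : ∀ x, f (1 + x) = 1 + f x) (hmul : ∀ x y, f (x * y) = f x * f y)
    (a k k' : R) (n m : ℕ) (hk : (lm a ^ n) k = 0) (hk' : (lm (1 + a) ^ m) k' = 0) (w : R) :
    f (w + k + k') = f (w + k) + f (w + k') - f w := by
  set X : S := f (w + k + k') - f (w + k) - f (w + k') + f w with hX
  have h1 : (lm (f a) ^ n) X = 0 := by
    rw [hX, map_add, map_sub, map_sub, ← f_iter hmul, ← f_iter hmul, ← f_iter hmul,
      ← f_iter hmul]
    have e1 : (lm a ^ n) (w + k + k') = (lm a ^ n) (w + k') := by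
      rw [map_add, map_add, map_add, hk, add_zero]
    have e2 : (lm a ^ n) (w + k) = (lm a ^ n) w := by
      rw [map_add, hk, add_zero]
    rw [e1, e2]
    abel
  have h2 : ((1 + lm (f a)) ^ m) X = 0 := by
    have e0 : (1 + lm (f a)) = lm (f (1 + a)) := by rw [hsucc, lm_one_add]
    rw [e0, hX, map_add, map_sub, map_sub, ← f_iter hmul, ← f_iter hmul, ← f_iter hmul,
      ← f_iter hmul]
    have e1 : (lm (1 + a) ^ m) (w + k + k') = (lm (1 + a) ^ m) (w + k) := by
      rw [map_add _ (w + k), hk', add_zero]
    have e2 : (lm (1 + a) ^ m) (w + k') = (lm (1 + a) ^ m) w := by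
      rw [map_add, hk', add_zero]
    rw [e1, e2]
    abel
  obtain ⟨A, B, -, -, hAB⟩ := exists_bezout (lm (f a)) n m
  have h3 : X = 0 := by
    have h4 : (A * lm (f a) ^ n + B * (1 + lm (f a)) ^ m : AddMonoid.End S) X = X := by
      rw [hAB]; rfl
    rw [← h4]
    change A ((lm (f a) ^ n) X) + B (((1 + lm (f a)) ^ m) X) = 0
    rw [h1, h2, map_zero, map_zero, add_zero]
  rw [hX] at h3
  rw [eq_sub_iff_add_eq, ← sub_eq_zero, ← h3]
  abel

theorem add_of_dvd (hsucc : ∀ x, f (1 + x) = 1 + f x) (hmul : ∀ x y, f (x * y) = f x * f y)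
    (a y : R) : f (a + a * y) = f a + f (a * y) := by
  have h : a + a * y = a * (1 + y) := by rw [mul_add, mul_one]
  rw [h, hmul, hsucc, mul_add, mul_one, hmul]

theorem add_of_dvd' (hsucc : ∀ x, f (1 + x) = 1 + f x) (hmul : ∀ x y, f (x * y) = f x * f y)
    (a y : R) : f (a + (1 + a) * y) = f a + f ((1 + a) * y) := by
  have h := add_of_dvd hsucc hmul (1 + a) y
  rw [add_assoc, hsucc, hsucc, add_assoc] at h
  exact add_left_cancel h

/-- If `L^n k = 0` then `k` is a left multiple of `1 + a`. -/
theorem ker_sub (a k : R) (n : ℕ) (hk : (lm a ^ n) k = 0) : ∃ y, k = (1 + a) * y := by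
  obtain ⟨A, B, -, hB, hAB⟩ := exists_bezout (lm a) n 1
  refine ⟨B k, ?_⟩
  have h4 : (A * lm a ^ n + B * (1 + lm a) ^ 1 : AddMonoid.End R) k = k := by rw [hAB]; rfl
  have h5 : B * (1 + lm a) ^ 1 = (1 + lm a) * B := by
    rw [pow_one]
    exact ((Commute.one_right B).add_right hB).eq
  rw [h5] at h4
  have h6 : A ((lm a ^ n) k) + (1 + lm a) (B k) = k := h4
  rw [hk, map_zero, zero_add, ← lm_one_add, lm_apply] at h6
  exact h6.symm

/-- If `(1 + L)^m k = 0` then `k` is a left multiple of `a`. -/
theorem ker_sub' (a k : R) (m : ℕ) (hk : (lm (1 + a) ^ m) k = 0) : ∃ y, k = a * y := by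
  obtain ⟨A, B, hA, -, hAB⟩ := exists_bezout (lm a) 1 m
  refine ⟨A k, ?_⟩
  have h4 : (A * lm a ^ 1 + B * (1 + lm a) ^ m : AddMonoid.End R) k = k := by rw [hAB]; rfl
  have h5 : A * lm a ^ 1 = lm a * A := by
    rw [pow_one]
    exact hA.eq
  rw [h5, ← lm_one_add] at h4
  have h6 : lm a (A k) + B ((lm (1 + a) ^ m) k) = k := h4
  rw [hk, map_zero, add_zero, lm_apply] at h6
  exact h6.symm

theorem main (hsucc : ∀ x, f (1 + x) = 1 + f x) (hmul : ∀ x y, f (x * y) = f x * f y)
    (a z : R) (h1 : LeftStable a) (h2 : LeftStable (1 + a)) :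
    f (a + z) = f a + f z := by
  obtain ⟨n, y, hy⟩ := h1 z
  obtain ⟨m, y', hy'⟩ := h2 (a * y)
  rw [lm_iterate, lm_iterate, pow_succ] at hy hy'
  -- the two kernel components
  have hk : (lm a ^ n) (z - a * y) = 0 := by
    rw [map_sub, sub_eq_zero]
    exact hy
  have hk' : (lm (1 + a) ^ m) (a * y - (1 + a) * y') = 0 := by
    rw [map_sub, sub_eq_zero]
    exact hy'
  set k := z - a * y with hkdef
  set k' := a * y - (1 + a) * y' with hk'def
  set w := (1 + a) * y' with hw
  have hz : z = w + k + k' := by
    rw [hkdef, hk'def]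
    abel
  obtain ⟨p, hp⟩ := ker_sub a k n hk
  obtain ⟨q, hq⟩ := ker_sub' a k' m hk'
  -- `w` is a left multiple of `a`
  have hwa : w = a * (y - q) := by
    rw [mul_sub, ← hq, hk'def]
    abel
  have hwk : w + k = (1 + a) * (y' + p) := by
    rw [mul_add, ← hp]
  have hwk' : w + k' = a * y := by
    rw [hk'def]
    abel
  have m1 := mixed_diff hsucc hmul a k k' n m hk hk' w
  have m2 := mixed_diff hsucc hmul a k k' n m hk hk' (a + w)
  have d1 : f (a + w) = f a + f w := by
    rw [hwa]
    exact add_of_dvd hsucc hmul a _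
  have d2 : f (a + w + k) = f a + f (w + k) := by
    rw [add_assoc, hwk]
    exact add_of_dvd' hsucc hmul a _
  have d3 : f (a + w + k') = f a + f (w + k') := by
    rw [add_assoc, hwk']
    exact add_of_dvd hsucc hmul a _
  rw [hz, m1]
  have e : a + (w + k + k') = a + w + k + k' := by abel
  rw [e, m2, d1, d2, d3]
  abel

theorem leftStable_of_finite [Finite R] (a : R) : LeftStable a := by
  intro z
  obtain ⟨i, j, hij, h⟩ := Finite.exists_ne_map_eq_of_infinite
    (fun n : ℕ => (fun x : R => a * x)^[n] z)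
  rcases lt_or_gt_of_ne hij with hlt | hlt
  · refine ⟨i, (fun x : R => a * x)^[j - (i + 1)] z, ?_⟩
    rw [← Function.iterate_add_apply]
    have : i + 1 + (j - (i + 1)) = j := by omega
    rw [this]
    exact h
  · refine ⟨j, (fun x : R => a * x)^[i - (j + 1)] z, ?_⟩
    rw [← Function.iterate_add_apply]
    have : j + 1 + (i - (j + 1)) = i := by omega
    rw [this]
    exact h.symm

end main

/-- Let `f : R → S` be a brachymorphism of unital non-associative rings and let `a : R`.
If `R` is finite, or if `a` and `1 + a` are left stable, then `f (a + z) = f a + f z`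
for all `z`. -/
theorem additive_at {R : Type u} {S : Type v} [NonAssocRing R] [NonAssocRing S] (f : R → S)
    (hsucc : ∀ x, f (1 + x) = 1 + f x) (hmul : ∀ x y, f (x * y) = f x * f y)
    (a : R) (ha : Finite R ∨ (LeftStable a ∧ LeftStable (1 + a))) (z : R) :
    f (a + z) = f a + f z := by
  rcases ha with hfin | ⟨h1, h2⟩
  · exact main hsucc hmul a z (leftStable_of_finite a) (leftStable_of_finite (1 + a))
  · exact main hsucc hmul a z h1 h2

end Pool.Agent.Lib.MP_041051_al.Positive
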